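import Pool.Agent.H74.TF.Stm2

/-!
# Project TF, parts GEN and TRANS
-/

set_option autoImplicit false

namespace Pool.Agent.H61.TF

open Finset Equiv MvPolynomial Pool.Agent.H74.TF

/-- The subgroup `(S_2 wr S_m) x S_k`. -/
def HH (m k : ℕ) : Subgroup (Perm (Pt m k)) := Subgroup.centralizer {dl m k}

theorem mem_HH (h0 : C_V0) {m k : ℕ} (g : Perm (Pt m k)) :
    g ∈ HH m k ↔ ∃ a b, wr a ∧ g = iot a b := by
  rw [h0.2.1 m k g, HH, Subgroup.mem_centralizer_singleton_iff]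

theorem mm_mul (h0 : C_V0) {F : Type} [CommRing F] {m k : ℕ} {ψ : Perm (Pt m k) → F}
    (hψ : ψ ∈ MM F m k) {h : Perm (Pt m k)} (hh : h ∈ HH m k) (g : Perm (Pt m k)) :
    ψ (g * h) = v0 F m k h * ψ g := by
  obtain ⟨a, b, ha, rfl⟩ := (mem_HH h0 h).1 hh
  rw [(h0.2.2 F m k).1 a b ha, hψ g a b ha, zsmul_eq_mul]

theorem se_mul (h0 : C_V0) {F : Type} [CommRing F] {m k : ℕ} {ψ : Perm (Pt m k) → F}
    (hψ : ψ ∈ SE F m k) {h : Perm (Pt m k)} (hh : h ∈ HH m k) (g : Perm (Pt m k)) :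
    ψ (h * g) = v0 F m k h * ψ g := by
  obtain ⟨a, b, ha, rfl⟩ := (mem_HH h0 h).1 hh
  rw [(h0.2.2 F m k).1 a b ha, (hψ g a b ha).2, zsmul_eq_mul]

theorem wr_one {m : ℕ} : wr (1 : Perm (Fin m × Bool)) := fun _ => rfl

theorem iot_one {m k : ℕ} : (iot 1 1 : Perm (Pt m k)) = 1 := Equiv.Perm.sumCongr_one

theorem v0_one (h0 : C_V0) {F : Type} [CommRing F] {m k : ℕ} : v0 F m k 1 = 1 := by
  rw [← iot_one, (h0.2.2 F m k).1 1 1 wr_one]
  simp [sg]

theorem v0_inv (h0 : C_V0) {F : Type} [CommRing F] {m k : ℕ} {h : Perm (Pt m k)}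
    (hh : h ∈ HH m k) : v0 F m k h * v0 F m k h⁻¹ = 1 := by
  have := mm_mul h0 (ψ := v0 F m k) ((h0.2.2 F m k).2.2.2.1 (h0.2.2 F m k).2.2.1) hh h⁻¹
  rw [inv_mul_cancel, v0_one h0] at this
  exact this.symm

theorem v0_not (h0 : C_V0) {F : Type} [CommRing F] {m k : ℕ} {h : Perm (Pt m k)}
    (hh : h ∉ HH m k) : v0 F m k h = 0 :=
  (h0.2.2 F m k).2.1 h fun h' => hh ((mem_HH h0 h).2 h')

theorem LL_apply {F : Type} [CommRing F] {m k : ℕ} (g x : Perm (Pt m k))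
    (ψ : Perm (Pt m k) → F) : LL F m k g ψ x = ψ (g⁻¹ * x) := rfl

/-- The term of the sum. -/
noncomputable def th {F : Type} [CommRing F] {m k : ℕ} (ψ w : Perm (Pt m k) → F)
    (x : Perm (Pt m k)) : Perm (Pt m k) → F := ψ x • LL F m k x w

theorem th_mul (h0 : C_V0) {F : Type} [CommRing F] {m k : ℕ} {ψ w : Perm (Pt m k) → F}
    (hψ : ψ ∈ MM F m k) (hw : w ∈ SE F m k) (x h : Perm (Pt m k)) (hh : h ∈ HH m k) :
    th ψ w (x * h) = th ψ w x := by
  ext y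
  simp only [th, Pi.smul_apply, smul_eq_mul, LL_apply]
  rw [mm_mul h0 hψ hh, show (x * h)⁻¹ * y = h⁻¹ * (x⁻¹ * y) by group,
    se_mul h0 hw (inv_mem hh)]
  have := v0_inv h0 (F := F) hh
  linear_combination (ψ x * w (x⁻¹ * y)) * this

theorem th_out (h0 : C_V0) {F : Type} [CommRing F] {m k : ℕ} {ψ w : Perm (Pt m k) → F}
    (hψ : ψ ∈ MM F m k) (hw : w ∈ SE F m k) (x : Perm (Pt m k)) :
    th ψ w (QuotientGroup.mk x : Perm (Pt m k) ⧸ HH m k).out = th ψ w x := by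
  obtain ⟨h, hh⟩ := QuotientGroup.mk_out_eq_mul (HH m k) x
  rw [hh, th_mul h0 hψ hw x h h.2]

open Classical in
/-- The homomorphism with the value `w` at `v0`. -/
noncomputable def TT {F : Type} [CommRing F] {m k : ℕ} (w : Perm (Pt m k) → F) :
    Module.End F (Perm (Pt m k) → F) where
  toFun ψ := ∑ c : Perm (Pt m k) ⧸ HH m k, th ψ w c.out
  map_add' ψ ψ' := by
    simp only [th, Pi.add_apply, add_smul, sum_add_distrib]
  map_smul' c ψ := by
    simp only [th, Pi.smul_apply, smul_eq_mul, mul_smul, smul_sum, RingHom.id_apply]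

open Classical in
theorem TT_apply {F : Type} [CommRing F] {m k : ℕ} (w ψ : Perm (Pt m k) → F) :
    TT w ψ = ∑ c : Perm (Pt m k) ⧸ HH m k, th ψ w c.out := rfl

theorem TT_eqv (h0 : C_V0) {F : Type} [CommRing F] {m k : ℕ} {ψ w : Perm (Pt m k) → F}
    (hψ : ψ ∈ MM F m k) (hw : w ∈ SE F m k) (g : Perm (Pt m k)) :
    TT w (LL F m k g ψ) = LL F m k g (TT w ψ) := by
  classical
  rw [TT_apply, TT_apply, map_sum]
  rw [← Equiv.sum_comp (MulAction.toPerm (g⁻¹ : Perm (Pt m k)) :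
    Perm (Perm (Pt m k) ⧸ HH m k)) (fun c => LL F m k g (th ψ w c.out))]
  refine Finset.sum_congr rfl fun c _ => ?_
  have h1 : (MulAction.toPerm (g⁻¹ : Perm (Pt m k)) : Perm (Perm (Pt m k) ⧸ HH m k)) c =
      QuotientGroup.mk (g⁻¹ * c.out) := by
    conv_lhs => rw [← QuotientGroup.out_eq' c]
    rfl
  rw [h1, th_out h0 hψ hw]
  ext y
  simp only [th, Pi.smul_apply, smul_eq_mul, LL_apply]
  congr 2
  group

theorem v0_mem_SE (h0 : C_V0) {F : Type} [CommRing F] {m k : ℕ} : v0 F m k ∈ SE F m k :=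
  (h0.2.2 F m k).2.2.1

theorem v0_mem_MM (h0 : C_V0) {F : Type} [CommRing F] {m k : ℕ} : v0 F m k ∈ MM F m k :=
  (h0.2.2 F m k).2.2.2.1 (v0_mem_SE h0)

theorem TT_v0 (h0 : C_V0) {F : Type} [CommRing F] {m k : ℕ} {w : Perm (Pt m k) → F}
    (hw : w ∈ SE F m k) : TT w (v0 F m k) = w := by
  classical
  rw [TT_apply, Finset.sum_eq_single (QuotientGroup.mk 1)]
  · rw [th_out h0 (v0_mem_MM h0) hw]
    ext y
    simp [th, v0_one h0, LL_apply]
  · intro c _ hc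
    have : (c.out : Perm (Pt m k)) ∉ HH m k := by
      intro h
      apply hc
      rw [← QuotientGroup.out_eq' c]
      exact (QuotientGroup.eq.2 (by simpa using h)).symm
    simp [th, v0_not h0 this]
  · intro h
    exact absurd (Finset.mem_univ _) h

theorem TT_v0' (h0 : C_V0) {F : Type} [CommRing F] {m k : ℕ} {ψ : Perm (Pt m k) → F}
    (hψ : ψ ∈ MM F m k) : TT (v0 F m k) ψ = ψ := by
  classical
  ext y
  rw [TT_apply, Finset.sum_apply, Finset.sum_eq_single (QuotientGroup.mk y)]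
  · rw [th_out h0 hψ (v0_mem_SE h0)]
    simp [th, v0_one h0, LL_apply]
  · intro c _ hc
    have : (c.out : Perm (Pt m k))⁻¹ * y ∉ HH m k := by
      intro h
      apply hc
      rw [← QuotientGroup.out_eq' c]
      exact (QuotientGroup.eq.2 h)
    simp [th, v0_not h0 this, LL_apply]
  · intro h
    exact absurd (Finset.mem_univ _) h

theorem t_GEN (h0 : C_V0) : C_GEN := by
  classical
  intro F _ m k
  refine ⟨fun ψ hψ => ?_, fun w hw => ⟨TT w, fun ψ hψ => ?_, fun ψ hψ g => TT_eqv h0 hψ hw g,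
    TT_v0 h0 hw⟩⟩
  · rw [← TT_v0' h0 hψ, TT_apply]
    refine Submodule.sum_mem _ fun c _ => Submodule.smul_mem _ _ (Submodule.subset_span ⟨_, rfl⟩)
  · rw [TT_apply]
    refine Submodule.sum_mem _ fun c _ => Submodule.smul_mem _ _ ?_
    exact (h0.2.2 F m k).2.2.2.2 _ _ ((h0.2.2 F m k).2.2.2.1 hw)

end Pool.Agent.H61.TF
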