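import Pool.Agent.H74.TF.Stm2

/-!
# Project TF, part IND
-/

set_option autoImplicit false

namespace Pool.Agent.H61.TF

open Finset Equiv MvPolynomial Pool.Agent.H74.TF

theorem rk_inj (m k : ℕ) : Function.Injective (rk : Pt m k → ℕ) := by
  intro x y h
  rcases x with ⟨i, b⟩ | r <;> rcases y with ⟨i', b'⟩ | r'
  · simp only [rk] at h
    have hb : b.toNat ≤ 1 := Bool.toNat_le b
    have hb' : b'.toNat ≤ 1 := Bool.toNat_le b'
    have h1 : (i : ℕ) = i' := by omega
    have h2 : b.toNat = b'.toNat := by omega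
    have h3 : b = b' := by
      cases b <;> cases b' <;> simp_all
    rw [Fin.ext h1, h3]
  · simp only [rk] at h
    have hb : b.toNat ≤ 1 := Bool.toNat_le b
    have := i.2
    omega
  · simp only [rk] at h
    have hb : b'.toNat ≤ 1 := Bool.toNat_le b'
    have := i'.2
    omega
  · simp only [rk] at h
    rw [show r = r' from Fin.ext (by omega)]

theorem span_mul {F U G : Type} [Field F] [AddCommGroup U] [Module F U] [Group G]
    (ρ : Representation F G U) (A : Module.End F U)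
    (hA : A ∈ Submodule.span F (Set.range fun g => ρ g)) (h : G) :
    A * ρ h ∈ Submodule.span F (Set.range fun g => ρ g) := by
  induction hA using Submodule.span_induction with
  | mem x hx =>
    obtain ⟨g, rfl⟩ := hx
    refine Submodule.subset_span ⟨g * h, ?_⟩
    simp
  | zero => rw [zero_mul]; exact Submodule.zero_mem _
  | add x y _ _ hx hy => rw [add_mul]; exact Submodule.add_mem _ hx hy
  | smul a x _ hx => rw [smul_mul_assoc]; exact Submodule.smul_mem _ _ hx

theorem evs_span {F : Type} [Field F] {m k : ℕ}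
    (evs : MvPolynomial (Fin m ⊕ Fin k) F →ₐ[F] Module.End F (Perm (Pt m k) → F))
    (he : IsEv evs) (f : MvPolynomial (Fin m ⊕ Fin k) F) :
    evs f ∈ Submodule.span F (Set.range fun g => LL F m k g) := by
  induction f using MvPolynomial.induction_on with
  | C a =>
    rw [show (C a : MvPolynomial (Fin m ⊕ Fin k) F) = algebraMap F _ a from rfl,
      AlgHom.commutes, Algebra.algebraMap_eq_smul_one]
    exact Submodule.smul_mem _ _ (Submodule.subset_span ⟨1, by simp⟩)
  | add p q hp hq => rw [map_add]; exact Submodule.add_mem _ hp hq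
  | mul_X p c hp =>
    rw [map_mul, he c]
    unfold JJ JM
    rw [mul_sum]
    exact Submodule.sum_mem _ fun y _ => span_mul _ _ hp _

theorem t_IND (hEV : C_EV) (hCOM : C_COM) (hOUT : C_OUT) (hINN : C_INN) (hSYMM : C_SYMM)
    (hESY : C_ESY) (hTRI : C_TRI) (hGEN : C_GEN) (hRES : C_RES) (hABS : C_ABS) (h0 : C_V0) :
    C_IND := by
  intro p F _ _ m k e₁ e₂ hp
  have h2 : ∀ a : F, a + a = 0 → a = 0 := by
    intro a ha
    rw [← two_mul] at ha
    rcases mul_eq_zero.1 ha with h | h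
    · exfalso
      have h' : ((2 : ℕ) : F) = 0 := by exact_mod_cast h
      have h3 := (CharP.cast_eq_zero_iff F p 2).1 h'
      have h4 := Nat.le_of_dvd (by norm_num) h3
      obtain ⟨t, rfl⟩ := hp
      have h5 : t = 0 := by omega
      subst h5
      exact CharP.char_ne_one F 1 (by norm_num)
    · exact h
  obtain ⟨evs, he⟩ := hEV F (Module.End F (Perm (Pt m k) → F)) (Fin m ⊕ Fin k)
    (fun c => JJ F m k (ctr c))
    (fun x y => (hCOM F (Pt m k) _ (LL F m k) rk (rk_inj m k)).1 _ _)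
  have he' : IsEv evs := he
  obtain ⟨hE1, hE2, hE3⟩ := hESY F m k
  choose qi hqi using fun j => (hE1 _).1 (hE2 j)
  choose qo hqo using fun j => (hE1 _).1 (hE3 j)
  obtain ⟨v1, v2, vSE, hle, hLM⟩ := h0.2.2 F m k
  obtain ⟨G1, G2⟩ := hGEN F m k
  obtain ⟨I1, I2, I3, I4⟩ := hINN F m k evs he'
  have key := hABS F (Perm (Pt m k) → F) (Perm (Pt m k)) (MvPolynomial (Fin m ⊕ Fin k) F) (ℕ ⊕ ℕ)
    (LL F m k) (MM F m k) (v0 F m k) (evs.comp (aeval (es F m k)))
    (Sum.elim qi qo) (Sum.elim e₁.coeff e₂.coeff)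
    (Sum.elim (RJ F m k) (csum (LL F m k)))
    (fun g u hu => hLM g u hu) (hle vSE) G1 ?_ ?_ ?_ ?_ ?_
  · have hWW : WW F m k e₁ e₂ = MM F m k ⊓ ⨅ j : ℕ ⊕ ℕ, Module.End.maxGenEigenspace
        ((Sum.elim (RJ F m k) (csum (LL F m k)) : ℕ ⊕ ℕ → _) j)
        ((Sum.elim e₁.coeff e₂.coeff : ℕ ⊕ ℕ → F) j) := by
      rw [iInf_sum, ← inf_assoc]
      rfl
    rw [hWW]
    exact key
  · intro T hT1 hT2
    have hSE : T (v0 F m k) ∈ SE F m k := by
      intro g a b ha
      refine ⟨hT1 _ (hle vSE) g a b ha, ?_⟩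
      have e1 : LL F m k (iot a b)⁻¹ (v0 F m k) = sg b • v0 F m k := by
        ext x
        show v0 F m k (((iot a b)⁻¹)⁻¹ * x) = _
        rw [inv_inv, (vSE x a b ha).2]
        rfl
      have e2 := hT2 _ (hle vSE) (iot a b)⁻¹
      rw [e1, map_zsmul] at e2
      have e3 := congrFun e2 g
      have e4 : LL F m k (iot a b)⁻¹ (T (v0 F m k)) g = T (v0 F m k) (iot a b * g) := by
        show T (v0 F m k) (((iot a b)⁻¹)⁻¹ * g) = _
        rw [inv_inv]
      rw [e4] at e3
      exact e3.symm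
    obtain ⟨f, hf, hfv⟩ := hTRI F m k evs h2 he' _ hSE
    obtain ⟨q, rfl⟩ := (hE1 f).1 hf
    exact ⟨q, hfv.symm⟩
  · intro f
    obtain ⟨T, hT1, hT2, hT3⟩ := G2 _ (hSYMM F m k evs h2 he' _ ((hE1 _).2 ⟨f, rfl⟩))
    exact ⟨T, hT1, hT2, hT3⟩
  · intro f
    exact evs_span evs he' _
  · rintro (j | j)
    · refine ⟨I3 j, fun u _ g => I2 j g u, ?_⟩
      show RJ F m k j (v0 F m k) = evs (aeval (es F m k) (qi j)) (v0 F m k)
      rw [hqi, I1]
    · refine ⟨fun u hu => ?_, fun u _ g => ?_, ?_⟩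
      · show csum (LL F m k) j u ∈ MM F m k
        unfold csum
        rw [LinearMap.sum_apply]
        exact Submodule.sum_mem _ fun g _ => hLM g u hu
      · exact LinearMap.congr_fun (I4 j g) u
      · show csum (LL F m k) j (v0 F m k) = evs (aeval (es F m k) (qo j)) (v0 F m k)
        rw [hqo, hOUT F m k evs he' j]
  · intro θ θ' h h'
    refine hRES p F (AlgebraicClosure F) m k qi qo hp hqi hqo θ θ' (fun j => ?_) (fun j => ?_)
    · rw [show qi j = (Sum.elim qi qo : ℕ ⊕ ℕ → _) (Sum.inl j) from rfl, h, h']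
    · rw [show qo j = (Sum.elim qi qo : ℕ ⊕ ℕ → _) (Sum.inr j) from rfl, h, h']

end Pool.Agent.H61.TF
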