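import Pool.Agent.H74.TF.Stm2

/-!
# Project TF, part TRANS
-/

set_option autoImplicit false

namespace Pool.Agent.H61.TF

open Finset Equiv MvPolynomial Pool.Agent.H74.TF

/-- The model map. -/
noncomputable def TM (F : Type) [Field F] (m k : ℕ) :
    (Perm (Pt m k) → F) →ₗ[F] (Perm (Pt m k) → Perm (Fin m × Bool) → F) where
  toFun ψ := fun g a => ψ (g * iot a 1)
  map_add' _ _ := rfl
  map_smul' _ _ := rfl

theorem TM_apply {F : Type} [Field F] {m k : ℕ} (ψ : Perm (Pt m k) → F) (g : Perm (Pt m k))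
    (a : Perm (Fin m × Bool)) : TM F m k ψ g a = ψ (g * iot a 1) := rfl

theorem iot_mul {m k : ℕ} (a a' : Perm (Fin m × Bool)) (b b' : Perm (Fin k)) :
    (iot a b * iot a' b' : Perm (Pt m k)) = iot (a * a') (b * b') :=
  Equiv.Perm.sumCongr_mul a b a' b'

theorem TM_inj (F : Type) [Field F] (m k : ℕ) : Function.Injective (TM F m k) := by
  intro ψ ψ' h
  ext g
  have := congrFun (congrFun h g) 1
  rw [TM_apply, TM_apply, show (iot 1 1 : Perm (Pt m k)) = 1 from Equiv.Perm.sumCongr_one,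
    mul_one] at this
  exact this

theorem cyc_conj {α : Type} [Fintype α] [DecidableEq α] (g x : Perm α) :
    cyc (x⁻¹ * g * x) = cyc g := by
  unfold cyc
  rw [show (x⁻¹ * g * x).partition = g.partition from
    Equiv.Perm.partition_eq_of_isConj.1 (by
      rw [isConj_comm, isConj_iff]
      exact ⟨x⁻¹, by rw [inv_inv]⟩)]

theorem cyc_inv {α : Type} [Fintype α] [DecidableEq α] (g : Perm α) : cyc g⁻¹ = cyc g := by
  unfold cyc
  rw [Equiv.Perm.parts_partition, Equiv.Perm.parts_partition, Equiv.Perm.cycleType_inv,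
    Equiv.Perm.support_inv]

/-- The class sum acts in the same way on the left and on the right. -/
theorem csum_lt {F α : Type} [Field F] [Fintype α] [DecidableEq α] (j : ℕ) (f : Perm α → F)
    (x : Perm α) :
    csum (lt F (Perm α) F) j f x =
      ∑ s : Perm α with cyc s + j = Fintype.card α, f (x * s) := by
  unfold csum
  rw [LinearMap.sum_apply, Finset.sum_apply]
  refine Finset.sum_bij' (fun s _ => x⁻¹ * s⁻¹ * x) (fun s _ => x * s⁻¹ * x⁻¹) ?_ ?_ ?_ ?_ ?_
  · intro s hs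
    simp only [mem_filter, mem_univ, true_and] at hs ⊢
    rw [cyc_conj, cyc_inv, hs]
  · intro s hs
    simp only [mem_filter, mem_univ, true_and] at hs ⊢
    rw [show x * s⁻¹ * x⁻¹ = (x⁻¹)⁻¹ * s⁻¹ * x⁻¹ by group, cyc_conj, cyc_inv, hs]
  · intro s _
    group
  · intro s _
    group
  · intro s _
    show f (s⁻¹ * x) = _
    congr 1
    group

/-- The pointwise class sum. -/
noncomputable def CC (F : Type) [Field F] (m k j : ℕ) :
    Module.End F (Perm (Pt m k) → Perm (Fin m × Bool) → F) where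
  toFun φ := fun g => csum (lt F (Perm (Fin m × Bool)) F) j (φ g)
  map_add' φ φ' := by
    ext g : 1
    simp
  map_smul' c φ := by
    ext g : 1
    simp

theorem TM_RJ (F : Type) [Field F] (m k j : ℕ) (ψ : Perm (Pt m k) → F) :
    TM F m k (RJ F m k j ψ) = CC F m k j (TM F m k ψ) := by
  ext g a
  show _ = csum (lt F (Perm (Fin m × Bool)) F) j (TM F m k ψ g) a
  rw [csum_lt]
  show ∑ s : Perm (Fin m × Bool) with cyc s + j = Fintype.card (Fin m × Bool),
    ψ (g * iot a 1 * iot s 1) = _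
  refine Finset.sum_congr rfl fun s _ => ?_
  rw [TM_apply, mul_assoc, iot_mul, one_mul]

theorem TM_LL (F : Type) [Field F] (m k : ℕ) (g : Perm (Pt m k)) (ψ : Perm (Pt m k) → F) :
    TM F m k (LL F m k g ψ) = lt F (Perm (Pt m k)) (Perm (Fin m × Bool) → F) g (TM F m k ψ) := by
  ext x a
  show ψ (g⁻¹ * (x * iot a 1)) = ψ (g⁻¹ * x * iot a 1)
  rw [mul_assoc]

theorem TM_cs (F : Type) [Field F] (m k j : ℕ) (ψ : Perm (Pt m k) → F) :
    TM F m k (csum (LL F m k) j ψ) =
      csum (lt F (Perm (Pt m k)) (Perm (Fin m × Bool) → F)) j (TM F m k ψ) := by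
  unfold csum
  rw [LinearMap.sum_apply, LinearMap.sum_apply, map_sum]
  exact Finset.sum_congr rfl fun g _ => TM_LL F m k g ψ

theorem mge_iff {F U U' : Type} [Field F] [AddCommGroup U] [Module F U] [AddCommGroup U']
    [Module F U'] (T : U →ₗ[F] U') (hT : Function.Injective T) (A : Module.End F U)
    (A' : Module.End F U') (h : ∀ u, T (A u) = A' (T u)) (μ : F) (u : U) :
    u ∈ A.maxGenEigenspace μ ↔ T u ∈ A'.maxGenEigenspace μ := by
  have key : ∀ (n : ℕ) (u : U), T (((A - μ • 1) ^ n) u) = ((A' - μ • 1) ^ n) (T u) := by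
    intro n
    induction n with
    | zero => intro u; rfl
    | succ n ih =>
      intro u
      rw [pow_succ, pow_succ, Module.End.mul_apply, Module.End.mul_apply, ih]
      congr 1
      simp [h]
  rw [Module.End.mem_maxGenEigenspace, Module.End.mem_maxGenEigenspace]
  constructor
  · rintro ⟨n, hn⟩
    exact ⟨n, by rw [← key, hn, map_zero]⟩
  · rintro ⟨n, hn⟩
    exact ⟨n, hT (by rw [key, hn, map_zero])⟩

theorem pw_iff {F I U : Type} [Field F] [Finite I] [AddCommGroup U] [Module F U]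
    (A : Module.End F U) (A' : Module.End F (I → U)) (h : ∀ φ i, A' φ i = A (φ i)) (μ : F)
    (φ : I → U) : φ ∈ A'.maxGenEigenspace μ ↔ ∀ i, φ i ∈ A.maxGenEigenspace μ := by
  have := Fintype.ofFinite I
  have key : ∀ (n : ℕ) (φ : I → U) (i : I),
      ((A' - μ • 1) ^ n) φ i = ((A - μ • 1) ^ n) (φ i) := by
    intro n
    induction n with
    | zero => intro φ i; rfl
    | succ n ih =>
      intro φ i
      rw [pow_succ, pow_succ, Module.End.mul_apply, Module.End.mul_apply, ih]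
      congr 1
      simp [h]
  simp only [Module.End.mem_maxGenEigenspace]
  constructor
  · rintro ⟨n, hn⟩ i
    exact ⟨n, by rw [← key, hn]; rfl⟩
  · intro hi
    choose n hn using hi
    refine ⟨∑ i, n i, ?_⟩
    ext i : 1
    rw [key, Pi.zero_apply]
    have hle : n i ≤ ∑ i, n i := Finset.single_le_sum (fun _ _ => Nat.zero_le _) (mem_univ i)
    obtain ⟨d, hd⟩ := Nat.exists_eq_add_of_le' hle
    rw [hd, pow_add, Module.End.mul_apply, hn i, map_zero]

theorem t_TRANS : C_TRANS := by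
  intro F _ m k e₁ e₂
  refine ⟨TM F m k, TM_inj F m k, fun g ψ => TM_LL F m k g ψ, ?_⟩
  have h1 : ∀ (j : ℕ) (μ : F) (ψ : Perm (Pt m k) → F), ψ ∈ (RJ F m k j).maxGenEigenspace μ ↔
      ∀ g, TM F m k ψ g ∈ (csum (lt F (Perm (Fin m × Bool)) F) j).maxGenEigenspace μ := by
    intro j μ ψ
    rw [mge_iff (TM F m k) (TM_inj F m k) (RJ F m k j) (CC F m k j) (TM_RJ F m k j) μ ψ]
    exact pw_iff _ (CC F m k j) (fun φ g => rfl) μ _
  have h2 : ∀ (j : ℕ) (μ : F) (ψ : Perm (Pt m k) → F),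
      ψ ∈ (csum (LL F m k) j).maxGenEigenspace μ ↔
      TM F m k ψ ∈
        (csum (lt F (Perm (Pt m k)) (Perm (Fin m × Bool) → F)) j).maxGenEigenspace μ :=
    fun j μ ψ => mge_iff (TM F m k) (TM_inj F m k) _ _ (TM_cs F m k j) μ ψ
  have h3 : ∀ ψ ∈ MM F m k, ∀ g a b, TM F m k ψ (g * iot a b) =
      sg b • lt F (Perm (Fin m × Bool)) F a⁻¹ (TM F m k ψ g) := by
    intro ψ hψ g a b
    ext x
    have : (g * iot a b * iot x 1 : Perm (Pt m k)) = g * iot (a * x) 1 * iot 1 b := by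
      rw [mul_assoc, mul_assoc, iot_mul, iot_mul]
      simp
    rw [TM_apply, this, hψ _ 1 b (fun _ => rfl)]
    show _ = sg b • TM F m k ψ g ((a⁻¹)⁻¹ * x)
    rw [inv_inv, TM_apply]
  ext φ
  constructor
  · rintro ⟨ψ, hψ, rfl⟩
    obtain ⟨⟨hM, hR⟩, hB⟩ := hψ
    refine ⟨⟨fun g => ⟨?_, ?_⟩, fun g a b => h3 ψ hM g a b⟩, ?_⟩
    · intro x a ha
      show ψ (g * iot (x * a) 1) = ψ (g * iot x 1)
      have : (g * iot (x * a) 1 : Perm (Pt m k)) = g * iot x 1 * iot a 1 := by
        rw [mul_assoc, iot_mul, one_mul]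
      rw [this, hM _ a 1 ha]
      simp [sg]
    · rw [SetLike.mem_coe, Submodule.mem_iInf] at hR
      rw [SetLike.mem_coe, blk, Submodule.mem_iInf]
      exact fun j => (h1 j _ ψ).1 (hR j) g
    · rw [SetLike.mem_coe, blk, Submodule.mem_iInf] at hB ⊢
      exact fun j => (h2 j _ ψ).1 (hB j)
  · rintro ⟨⟨hW, hI⟩, hB⟩
    have hφ : TM F m k (fun g => φ g 1) = φ := by
      ext g a
      show φ (g * iot a 1) 1 = φ g a
      rw [hI g a 1]
      show ((Perm.sign (1 : Perm (Fin k)) : ℤˣ) : ℤ) • φ g ((a⁻¹)⁻¹ * 1) = _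
      simp
    refine ⟨fun g => φ g 1, ⟨⟨?_, ?_⟩, ?_⟩, hφ⟩
    · intro g a b ha
      show φ (g * iot a b) 1 = sg b • φ g 1
      rw [hI g a b]
      show sg b • φ g ((a⁻¹)⁻¹ * 1) = _
      have := (hW g).1 1 a ha
      rw [one_mul] at this
      rw [inv_inv, mul_one, this]
    · rw [SetLike.mem_coe, Submodule.mem_iInf]
      intro j
      rw [h1, hφ]
      intro g
      have := (hW g).2
      rw [SetLike.mem_coe, blk, Submodule.mem_iInf] at this
      exact this j
    · rw [SetLike.mem_coe, blk, Submodule.mem_iInf] at hB ⊢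
      intro j
      rw [h2, hφ]
      exact hB j

end Pool.Agent.H61.TF
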